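import Pool.Agent.Y111.DM.Sets

/-!
# The Chudnovsky–Demailly bound for fat schemes with arbitrary support

`w` is an arbitrary function on the `K`-rational points of the projective space of dimension `N`
with values in the natural numbers, not identically zero: a formal sum of points with
multiplicities, finitely or infinitely many, for example the sum of all points of a projective
variety. `I(m w)` is the ideal of the polynomials which vanish to order at least `m w(p)` at every
point `p`. For finite support this is the ideal `I(mZ)` of a multiple of a fat point scheme `Z`.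

If `I(w)` is not zero then the Waldschmidt constant `c = lim α(I(r w)) / r` exists, it is the
infimum of the `α(I(r w)) / r`, and `c ≥ (α(I(m w)) + N - 1) / (m + N - 1)` for all `m ≥ 1`. For
finite support this is the bound asked for in the problem, over an arbitrary field.

The proof: forms of bounded degree satisfy the infinitely many conditions at the points of the
support as soon as they satisfy finitely many of them; for finitely many points with multiplicities
the inequality is a theorem of the starting library `H737R3`.
-/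

set_option autoImplicit false

namespace Pool.Agent.Results.MP_6bebef_ag.InfiniteSupport

open MvPolynomial Filter Topology Pool.Agent.H737R3 Pool.Agent.Y111.DM

/-- **The Chudnovsky–Demailly bound** for arbitrary, finite or infinite, formal sums of points, and
for fat point schemes, over an arbitrary field `K`, `N ≥ 1`. -/
theorem result (K : Type*) [Field K] (N : ℕ) (hN : 1 ≤ N) :
    (∀ w : PP K N → ℕ, w ≠ 0 → multIdeal w ≠ ⊥ →
      ∃ c : ℝ, Tendsto (fun r : ℕ => (alpha (multIdeal (fun p => r * w p)) : ℝ) / r) atTop (𝓝 c) ∧
        (∀ r : ℕ, 1 ≤ r → c ≤ (alpha (multIdeal (fun p => r * w p)) : ℝ) / r) ∧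
        ∀ m : ℕ, 1 ≤ m →
          ((alpha (multIdeal (fun p => m * w p)) : ℝ) + N - 1) / ((m : ℝ) + N - 1) ≤ c) ∧
    (∀ Z : PP K N →₀ ℕ, Z ≠ 0 →
      ∃ c : ℝ, Tendsto (fun r : ℕ => (alpha (fatIdeal (r • Z)) : ℝ) / r) atTop (𝓝 c) ∧
        ∀ m : ℕ, 1 ≤ m → ((alpha (fatIdeal (m • Z)) : ℝ) + N - 1) / ((m : ℝ) + N - 1) ≤ c) := by
  have main : ∀ w : PP K N → ℕ, w ≠ 0 → multIdeal w ≠ ⊥ →
      ∃ c : ℝ, Tendsto (fun r : ℕ => (alpha (multIdeal (fun p => r * w p)) : ℝ) / r) atTop (𝓝 c) ∧
        (∀ r : ℕ, 1 ≤ r → c ≤ (alpha (multIdeal (fun p => r * w p)) : ℝ) / r) ∧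
        ∀ m : ℕ, 1 ≤ m →
          ((alpha (multIdeal (fun p => m * w p)) : ℝ) + N - 1) / ((m : ℝ) + N - 1) ≤ c := by
    intro w hw hne
    have h1 : multIdeal (fun p => 1 * w p) ≠ ⊥ := by simpa only [one_mul] using hne
    have hall : ∀ m, multIdeal (fun p => m * w p) ≠ ⊥ := fun m => multIdeal_ne_bot le_rfl h1 m
    obtain ⟨c, hc⟩ := exists_limit' hall
    refine ⟨c, hc, limit_le hall hc, fun m hm => ge_of_tendsto hc ?_⟩
    filter_upwards [eventually_ge_atTop 1] with r hr
    exact real_of_nat hN hm hr (demailly_all hN w hw m r hm (hall r))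
  refine ⟨main, ?_⟩
  intro Z hZ
  have hfat : ∀ m : ℕ, fatIdeal (m • Z) = multIdeal (fun p => m * Z p) := by
    intro m
    ext F
    rw [mem_multIdeal]
    unfold fatIdeal
    simp only [Submodule.mem_iInf]
    constructor
    · intro h p
      by_cases hp : p ∈ (m • Z).support
      · exact h p hp
      · have h0 : m * Z p = 0 := by
          have h1 := Finsupp.notMem_support_iff.1 hp
          rwa [Finsupp.smul_apply, smul_eq_mul] at h1
        rw [h0, pow_zero, Ideal.one_eq_top]
        trivial
    · intro h p _
      exact h p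
  have hne : (Z : PP K N → ℕ) ≠ 0 := fun h => hZ (DFunLike.coe_injective (by simpa using h))
  obtain ⟨c, hc, -, hm⟩ := main Z hne
    (multIdeal_ne_bot_of_finite hN Z.finite_support)
  refine ⟨c, ?_, ?_⟩
  · simpa only [hfat] using hc
  · simpa only [hfat] using hm

end Pool.Agent.Results.MP_6bebef_ag.InfiniteSupport
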